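import Pool.Agent.H23.DF.TargetsW
import Pool.Agent.H90.WM.Cc

/-!
# The bound of Weil for two characters: power sums
-/

set_option autoImplicit false

namespace Pool.Agent.H6.DF

open Pool.Agent.H23.DF

/-- a monic cubic polynomial splits -/
theorem cubic_split (a₁ a₂ a₃ : ℂ) : ∃ w₁ w₂ w₃ : ℂ, a₁ = -(w₁ + w₂ + w₃) ∧
    a₂ = w₁ * w₂ + w₁ * w₃ + w₂ * w₃ ∧ a₃ = -(w₁ * w₂ * w₃) := by
  obtain ⟨r, hr⟩ : ∃ r : ℂ, r ^ 3 + a₁ * r ^ 2 + a₂ * r + a₃ = 0 := by
    open Polynomial in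
    have hd : (X ^ 3 + C a₁ * X ^ 2 + C a₂ * X + C a₃ : Polynomial ℂ).degree = 3 := by
      compute_degree!
    obtain ⟨r, hr⟩ := IsAlgClosed.exists_root
      (Polynomial.X ^ 3 + Polynomial.C a₁ * Polynomial.X ^ 2 + Polynomial.C a₂ * Polynomial.X +
        Polynomial.C a₃ : Polynomial ℂ) (by rw [hd]; norm_num)
    refine ⟨r, ?_⟩
    have h1 : Polynomial.eval r (Polynomial.X ^ 3 + Polynomial.C a₁ * Polynomial.X ^ 2 +
      Polynomial.C a₂ * Polynomial.X + Polynomial.C a₃ : Polynomial ℂ) = 0 := hr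
    simpa using h1
  obtain ⟨d, hd⟩ := IsAlgClosed.exists_pow_nat_eq
    ((a₁ + r) ^ 2 - 4 * (a₂ + r * (a₁ + r))) (n := 2) (by norm_num)
  refine ⟨r, (-(a₁ + r) + d) / 2, (-(a₁ + r) - d) / 2, by ring, ?_, ?_⟩
  · have h1 : (-(a₁ + r) + d) / 2 * ((-(a₁ + r) - d) / 2) = a₂ + r * (a₁ + r) := by
      linear_combination (-1 / 4 : ℂ) * hd
    linear_combination -h1
  · have h1 : (-(a₁ + r) + d) / 2 * ((-(a₁ + r) - d) / 2) = a₂ + r * (a₁ + r) := by
      linear_combination (-1 / 4 : ℂ) * hd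
    linear_combination hr + r * h1

/-- the power sums of an `L`-function of degree three -/
theorem three_roots (a S : ℕ → ℂ) (h0 : a 0 = 1) (h4 : ∀ n, 4 ≤ n → a n = 0)
    (hrec : ∀ n : ℕ, 1 ≤ n → (n : ℂ) * a n = ∑ k ∈ Finset.Icc 1 n, S k * a (n - k)) :
    ∃ w : Fin 3 → ℂ, ∀ k : ℕ, 1 ≤ k → S k = -(w 0 ^ k + w 1 ^ k + w 2 ^ k) := by
  obtain ⟨w₁, w₂, w₃, e1, e2, e3⟩ := cubic_split (a 1) (a 2) (a 3)
  have hS1 : S 1 = -(w₁ + w₂ + w₃) := by
    have := hrec 1 le_rfl
    simp [h0] at this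
    rw [← this, e1]
  have hS2 : S 2 = -(w₁ ^ 2 + w₂ ^ 2 + w₃ ^ 2) := by
    have := hrec 2 (by norm_num)
    rw [Finset.sum_Icc_succ_top (by norm_num), Finset.Icc_self, Finset.sum_singleton] at this
    simp only [Nat.reduceAdd, Nat.reduceSub, h0, hS1, e1, e2] at this
    push_cast at this
    linear_combination -this
  have hS3 : S 3 = -(w₁ ^ 3 + w₂ ^ 3 + w₃ ^ 3) := by
    have := hrec 3 (by norm_num)
    rw [Finset.sum_Icc_succ_top (by norm_num), Finset.sum_Icc_succ_top (by norm_num),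
      Finset.Icc_self, Finset.sum_singleton] at this
    simp only [Nat.reduceAdd, Nat.reduceSub, h0, hS1, hS2, e1, e2, e3] at this
    push_cast at this
    linear_combination -this
  have hSk : ∀ k : ℕ, 1 ≤ k → S k = -(w₁ ^ k + w₂ ^ k + w₃ ^ k) := by
    intro k
    induction k using Nat.strong_induction_on with
    | _ k ih =>
      intro hk
      match k, hk, ih with
      | 1, _, _ => simpa using hS1
      | 2, _, _ => exact hS2
      | 3, _, _ => exact hS3
      | m + 4, _, ih =>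
        have h5 := hrec (m + 4) (by omega)
        rw [h4 _ (by omega), mul_zero, Finset.sum_Icc_succ_top (by omega),
          Finset.sum_Icc_succ_top (by omega), Finset.sum_Icc_succ_top (by omega),
          Finset.sum_Icc_succ_top (by omega), Finset.sum_eq_zero] at h5
        · have f1 : m + 4 - (m + 1) = 3 := by omega
          have f2 : m + 4 - (m + 1 + 1) = 2 := by omega
          have f3 : m + 4 - (m + 2 + 1) = 1 := by omega
          have f4 : m + 4 - (m + 3 + 1) = 0 := by omega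
          rw [f1, f2, f3, f4, h0, e1, e2, e3, ih (m + 1) (by omega) (by omega),
            ih (m + 1 + 1) (by omega) (by omega), ih (m + 2 + 1) (by omega) (by omega)] at h5
          have e4 : S (m + 4) = S (m + 3 + 1) := rfl
          rw [e4]
          linear_combination -h5
        · intro k hk
          rw [Finset.mem_Icc] at hk
          rw [h4 _ (by omega), mul_zero]
  exact ⟨![w₁, w₂, w₃], fun k hk => by simpa using hSk k hk⟩

theorem pf_PL : V_PL := by
  intro ι _ a S q C k₀ hq hk₀ ha0 ha4 hrec hb i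
  have hroots : ∀ i : ι, ∃ w : Fin 3 → ℂ, ∀ k : ℕ, 1 ≤ k →
      S i k = -(w 0 ^ k + w 1 ^ k + w 2 ^ k) := fun i =>
    three_roots (a i) (S i) (ha0 i) (ha4 i) (hrec i)
  choose w hw using hroots
  have hq0 : 0 < q := by linarith
  have hs : 0 < Real.sqrt q ^ k₀ := pow_pos (Real.sqrt_pos.2 hq0) _
  have hsq : ∀ k : ℕ, q ^ ((k : ℝ) / 2) = Real.sqrt q ^ k := by
    intro k
    rw [Real.sqrt_eq_rpow, ← Real.rpow_natCast, ← Real.rpow_mul hq0.le]
    congr 1
    ring
  have hps := Pool.Agent.H90.WM.power_sum (ι := ι × Fin 3) (fun x => w x.1 x.2 ^ k₀) C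
    (Real.sqrt q ^ k₀) hs (by
      intro m hm
      have hkm : 1 ≤ k₀ * m := Nat.one_le_iff_ne_zero.2 (by positivity)
      have h1 : ∑ x : ι × Fin 3, (w x.1 x.2 ^ k₀) ^ m = -∑ i : ι, S i (k₀ * m) := by
        rw [Fintype.sum_prod_type, ← Finset.sum_neg_distrib]
        refine Finset.sum_congr rfl fun i _ => ?_
        rw [Fin.sum_univ_three, hw i _ hkm]
        ring
      rw [h1, norm_neg]
      refine (hb (k₀ * m) hkm (Dvd.intro _ rfl)).trans (le_of_eq ?_)
      rw [hsq, pow_mul])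
  have hn : ∀ (i : ι) (j : Fin 3), ‖w i j‖ ≤ Real.sqrt q := by
    intro i j
    have h1 := hps (i, j)
    simp only [norm_pow] at h1
    exact (pow_le_pow_iff_left₀ (norm_nonneg _) (Real.sqrt_nonneg _) (by omega)).1 h1
  rw [hw i 1 le_rfl, norm_neg, pow_one, pow_one, pow_one]
  have h1 := norm_add₃_le (a := w i 0) (b := w i 1) (c := w i 2)
  have h2 := hn i 0
  have h3 := hn i 1
  have h4 := hn i 2
  linarith

end Pool.Agent.H6.DF
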